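import Pool.Agent.Lib.MP_0b748d_nt.MR.Final

set_option autoImplicit false

/-!
Let `g` be a completely multiplicative function with values `±1` (for instance the Liouville
function `(-1)^Ω`).  A pair `(n, d)` with `d ∣ n^2 - 2` is balanced if `n ≤ D d` and `d ≤ D n`.
There are at most `C N` balanced pairs with `2 ≤ n ≤ N`, and for at least `c N` of them `n` has
the parity of `j` and `g (n^2 - 2) = g (j^2 - 2)`: a positive proportion.  In particular at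
least `c N / (log N)^2` of the integers `2 ≤ n ≤ N` have this property.  The constants depend
on `j` only.
-/

namespace Pool.Agent.Results.MP_0b748d_nt.BalancedSigns

open Pool.Agent.Lib.MP_0b748d_nt Pool.Agent.Lib.MP_0b748d_nt.MR

theorem result :
    ∀ j : ℕ, 2 ≤ j → ∃ (c C : ℝ) (D N₀ : ℕ), 0 < c ∧ ∀ N : ℕ, N₀ ≤ N →
      (((Finset.Icc 2 N ×ˢ Finset.Icc 1 (D * N)).filter (fun x : ℕ × ℕ =>
        x.2 ∣ x.1 ^ 2 - 2 ∧ x.1 ≤ D * x.2 ∧ x.2 ≤ D * x.1)).card : ℝ) ≤ C * N ∧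
      ∀ g : ℕ → ℤ,
      (∀ m n : ℕ, 0 < m → 0 < n → g (m * n) = g m * g n) →
      (∀ m : ℕ, 0 < m → g m = 1 ∨ g m = -1) →
        c * N ≤ (((Finset.Icc 2 N ×ˢ Finset.Icc 1 (D * N)).filter (fun x : ℕ × ℕ =>
          x.2 ∣ x.1 ^ 2 - 2 ∧ x.1 ≤ D * x.2 ∧ x.2 ≤ D * x.1 ∧
          x.1 % 2 = j % 2 ∧ g (x.1 ^ 2 - 2) = g (j ^ 2 - 2))).card : ℝ) ∧
        c * N / (Real.log N) ^ 2 ≤ (((Finset.Icc 2 N).filter
          (fun n => n % 2 = j % 2 ∧ g (n ^ 2 - 2) = g (j ^ 2 - 2))).card : ℝ) := by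
  classical
  intro j hj
  obtain ⟨c, C, D, N₀, hc, h⟩ := main j hj
  refine ⟨c, C, D, N₀, hc, ?_⟩
  intro N hN
  obtain ⟨h1, h2⟩ := h N hN
  refine ⟨?_, ?_⟩
  · refine le_trans ?_ h1
    have : ((Finset.Icc 2 N ×ˢ Finset.Icc 1 (D * N)).filter (fun x : ℕ × ℕ =>
        x.2 ∣ x.1 ^ 2 - 2 ∧ x.1 ≤ D * x.2 ∧ x.2 ≤ D * x.1)).card ≤ (BA D N).card := by
      apply Finset.card_le_card
      intro x hx
      simp only [BA, Finset.mem_filter] at hx ⊢
      exact hx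
    exact_mod_cast this
  · intro g hg1 hg2
    obtain ⟨h3, h4⟩ := h2 g ⟨hg1, hg2⟩
    constructor
    · refine h3.trans ?_
      have : (BP D N (j % 2) g (g (j ^ 2 - 2))).card ≤
          ((Finset.Icc 2 N ×ˢ Finset.Icc 1 (D * N)).filter (fun x : ℕ × ℕ =>
          x.2 ∣ x.1 ^ 2 - 2 ∧ x.1 ≤ D * x.2 ∧ x.2 ≤ D * x.1 ∧
          x.1 % 2 = j % 2 ∧ g (x.1 ^ 2 - 2) = g (j ^ 2 - 2))).card := by
        apply Finset.card_le_card
        intro x hx
        simp only [BP, Finset.mem_filter] at hx ⊢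
        exact ⟨hx.1, hx.2.2.1, hx.2.2.2.1, hx.2.2.2.2.1, hx.2.1, hx.2.2.2.2.2⟩
      exact_mod_cast this
    · refine h4.trans ?_
      have : ((BP D N (j % 2) g (g (j ^ 2 - 2))).image Prod.fst).card ≤
          ((Finset.Icc 2 N).filter
          (fun n => n % 2 = j % 2 ∧ g (n ^ 2 - 2) = g (j ^ 2 - 2))).card := by
        apply Finset.card_le_card
        intro n hn
        rw [Finset.mem_image] at hn
        obtain ⟨x, hx, rfl⟩ := hn
        simp only [BP, Finset.mem_filter, Finset.mem_product] at hx ⊢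
        exact ⟨hx.1.1, hx.2.1, hx.2.2.2.2.2⟩
      exact_mod_cast this

end Pool.Agent.Results.MP_0b748d_nt.BalancedSigns
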