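import Pool.Agent.Lib.MP_0b748d_nt.HH.FinJ

set_option autoImplicit false

/-!
A factorisation `n ^ 2 - 2 = d * e` is balanced if `n ≤ D d` and `d ≤ D n`.  At almost all scales
`X` (in logarithmic density) the four sign patterns `((-1) ^ Ω(d), (-1) ^ Ω(e))` occur with
asymptotic frequency `1 / 4` among the balanced factorisations with `X < n ≤ 2 X` and `n` of given
parity.  More generally, for every completely multiplicative `g` with values `± 1` the sign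
`(-1) ^ Ω(d)` is equidistributed on them, independently of `g(e)`.
-/

namespace Pool.Agent.Results.MP_0b748d_nt.FourPatterns

/-- the balanced factorisations, as pairs `(n, d)`: `X < n ≤ 2 X`, `n ≡ c mod 2`, `d ∣ n ^ 2 - 2`,
`n ≤ D d`, `d ≤ D n` (the last condition gives `d ≤ 2 D X`) -/
def Balanced (D X c : ℕ) : Finset (ℕ × ℕ) :=
  (Finset.Ioc X (2 * X) ×ˢ Finset.Icc 1 (2 * D * X)).filter (fun x => x.2 ∣ x.1 ^ 2 - 2 ∧
    x.1 ≤ D * x.2 ∧ x.2 ≤ D * x.1 ∧ x.1 % 2 = c)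

/-- the Liouville function `(-1) ^ Ω(m)` -/
def liou (m : ℕ) : ℤ := (-1) ^ (ArithmeticFunction.cardFactors m)

open Classical in
theorem result (D : ℕ) (hD : 8 ≤ D) (ε : ℝ) (hε : 0 < ε) : ∃ N₀ : ℕ, ∀ N : ℕ, N₀ ≤ N →
    ∀ c : ℕ, c < 2 → ∀ s t : ℤ, (s = 1 ∨ s = -1) → (t = 1 ∨ t = -1) →
    ∑ X ∈ (Finset.Icc 1 N).filter (fun X => ε * ((Balanced D X c).card : ℝ) <
      |(((Balanced D X c).filter (fun x => liou x.2 = s ∧
        liou ((x.1 ^ 2 - 2) / x.2) = t)).card : ℝ) - ((Balanced D X c).card : ℝ) / 4|),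
      (1 / (X : ℝ)) ≤ ε * Real.log N ∧
    ∀ g : ℕ → ℤ, (∀ m n : ℕ, 0 < m → 0 < n → g (m * n) = g m * g n) →
    (∀ m : ℕ, 0 < m → g m = 1 ∨ g m = -1) →
    ∑ X ∈ (Finset.Icc 1 N).filter (fun X => ε * ((Balanced D X c).card : ℝ) <
      |(((Balanced D X c).filter (fun x => liou x.2 = s ∧
        g ((x.1 ^ 2 - 2) / x.2) = t)).card : ℝ) -
        (((Balanced D X c).filter (fun x => g ((x.1 ^ 2 - 2) / x.2) = t)).card : ℝ) / 2|),
      (1 / (X : ℝ)) ≤ ε * Real.log N := by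
  obtain ⟨N₁, h₁⟩ := Pool.Agent.Lib.MP_0b748d_nt.HH.four_patterns D hD ε hε
  obtain ⟨N₂, h₂⟩ := Pool.Agent.Lib.MP_0b748d_nt.HH.half_indep D hD ε hε
  refine ⟨max N₁ N₂, fun N hN c hc s t hs ht => ⟨?_, fun g hg1 hg2 => ?_⟩⟩
  · exact h₁ N ((le_max_left _ _).trans hN) c hc s t hs ht
  · exact h₂ N ((le_max_right _ _).trans hN) g ⟨hg1, hg2⟩ c hc s t hs ht

end Pool.Agent.Results.MP_0b748d_nt.FourPatterns
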