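import Pool.Agent.Lib.MP_0b748d_nt.P.Twist

set_option autoImplicit false

/-!
Let `g` be a completely multiplicative function with values `±1` (for instance the Liouville
function `(-1)^Ω`).  If the value `s = g (j^2 - 2)` is taken once, then it is taken by
`g (n^2 - 2)` for at least `N / ((log N)^C * j^(2+ε))` of the integers `2 ≤ n ≤ N` of the same
parity as `j`, with `C` and the size of `N` depending on `ε` only.
-/

namespace Pool.Agent.Results.MP_0b748d_nt.SignPersistence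

open Pool.Agent.Lib.MP_0b748d_nt

theorem result :
    ∀ ε : ℝ, 0 < ε → ∃ C N₀ : ℕ, ∀ N : ℕ, N₀ ≤ N → ∀ g : ℕ → ℤ,
      (∀ m n : ℕ, 0 < m → 0 < n → g (m * n) = g m * g n) →
      (∀ m : ℕ, 0 < m → g m = 1 ∨ g m = -1) →
      ∀ j : ℕ, 2 ≤ j → j ≤ N →
        (N : ℝ) / ((Real.log N) ^ C * (j : ℝ) ^ (2 + ε)) ≤
          (((Finset.Icc 2 N).filter
            (fun n => n % 2 = j % 2 ∧ g (n ^ 2 - 2) = g (j ^ 2 - 2))).card : ℝ) := by
  intro ε hε
  obtain ⟨C, N₀, h⟩ := sign_persistence ε hε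
  exact ⟨C, N₀, fun N hN g h1 h2 j hj hjN => h N hN g ⟨h1, h2⟩ j hj hjN⟩

end Pool.Agent.Results.MP_0b748d_nt.SignPersistence
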