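import Pool.Agent.Lib.MP_0b748d_nt.M3.Gen

set_option autoImplicit false

/-!
Let `g` be completely additive on the positive integers, with values in an abelian group `A`, and
let `p` be a prime congruent to `1` or `7` modulo `8` such that no multiple `2^k g(p)` is zero.
Then for all `w₁, w₂` in `A`, at least `N / ((log N)^C * p^(2+ε))` of the integers `2 ≤ n ≤ N`
satisfy `g (n^2 - 2) ≠ w₁` and `g (n^2 - 2) ≠ w₂`.

For `A = ZMod 3` and `g = Ω mod 3` (`p = 7`): each residue class modulo 3 contains the number of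
prime factors of `n^2 - 2` for at least `N / (log N)^C` of the `n ≤ N`.
-/

namespace Pool.Agent.Results.MP_0b748d_nt.ThreeValues

universe u

theorem result :
    ∀ ε : ℝ, 0 < ε → ∃ C N₀ : ℕ, ∀ N : ℕ, N₀ ≤ N →
      ∀ (A : Type u) [AddCommGroup A] (g : ℕ → A),
      (∀ m n : ℕ, 0 < m → 0 < n → g (m * n) = g m + g n) →
      ∀ p : ℕ, p.Prime → (p % 8 = 1 ∨ p % 8 = 7) → (∀ k : ℕ, 2 ^ k • g p ≠ 0) →
      (Real.log N) ^ C * (p : ℝ) ^ (2 + ε) ≤ N → ∀ w₁ w₂ : A,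
      (N : ℝ) / ((Real.log N) ^ C * (p : ℝ) ^ (2 + ε)) ≤
        ({n : ℕ | 2 ≤ n ∧ n ≤ N ∧ g (n ^ 2 - 2) ≠ w₁ ∧ g (n ^ 2 - 2) ≠ w₂}.ncard : ℝ) :=
  Pool.Agent.Lib.MP_0b748d_nt.M3.gen3

end Pool.Agent.Results.MP_0b748d_nt.ThreeValues
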